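import Pool.Agent.FS.RangeApprox.Unb

set_option autoImplicit false

namespace Pool.Agent.FS.WeakLim

open Set Filter Topology Pool.Agent.Lib.MP_43cf21_an Pool.Agent.FS.RangeApprox

variable {X Y : Type*} [NormedAddCommGroup X] [NormedSpace ℝ X] [NormedAddCommGroup Y]
  [NormedSpace ℝ Y]

/-- Functionals on the space of operators that support `T`. -/
def St (T : X →L[ℝ] Y) : Type _ :=
  {φ : (X →L[ℝ] Y) →L[ℝ] ℝ // (∀ B, |φ B| ≤ ‖B‖) ∧ φ T = ‖T‖}

lemma att_st (T : X →L[ℝ] Y) (hT : 0 < ‖T‖) (h : BhatiaSemrl T) (a₀ : St T) (A : X →L[ℝ] Y) :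
    ∃ (a : St T) (x : X) (g : StrongDual ℝ Y), (∀ B, a.1 B = g (B x)) ∧
      ∀ b : St T, b.1 A ≤ a.1 A := by
  have : Nonempty (St T) := ⟨a₀⟩
  have hb : BddAbove (range fun b : St T => b.1 A) :=
    ⟨‖A‖, by rintro _ ⟨b, rfl⟩; exact (abs_le.1 (b.2.1 A)).2⟩
  set s := ⨆ b : St T, b.1 A
  have h1 : ∀ (t : ℝ) (b : St T),
      ‖T‖ + t * (b.1 A - s) ≤ ‖T + t • (A - (s / ‖T‖) • T)‖ := fun t b => by
    refine le_trans (le_of_eq ?_) (le_abs_self _ |>.trans (b.2.1 _))
    rw [map_add, map_smul, map_sub, map_smul, b.2.2, smul_eq_mul, smul_eq_mul,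
      div_mul_cancel₀ _ hT.ne']
  obtain ⟨x, hx, hx', h2⟩ := h (A - (s / ‖T‖) • T) fun t => by
    rcases le_or_gt t 0 with ht | ht
    · exact le_trans (le_add_of_nonneg_right (mul_nonneg_of_nonpos_of_nonpos ht
        (sub_nonpos.2 (le_ciSup hb a₀)))) (h1 t a₀)
    · refine le_of_forall_pos_le_add fun η hη => ?_
      obtain ⟨b, hb'⟩ := exists_lt_of_lt_ciSup (sub_lt_self s (div_pos hη ht))
      have h3 := h1 t b
      have h4 : t * (η / t) = η := mul_div_cancel₀ _ ht.ne'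
      nlinarith
  obtain ⟨g, hg1, hg2, hg3⟩ := exists_dual_of_BJ h2
  rw [hx'] at hg2
  refine ⟨⟨g.comp (ContinuousLinearMap.apply ℝ Y x), fun B => ?_, hg2⟩, x, g, fun B => rfl,
    fun b => (le_ciSup hb b).trans (le_of_eq ?_)⟩
  · have h5 : ‖g (B x)‖ ≤ 1 * ‖B x‖ := g.le_of_opNorm_le hg1 _
    rw [one_mul] at h5
    exact h5.trans (B.unit_le_opNorm _ hx.le)
  · rw [sub_apply, smul_apply, map_sub, map_smul, hg2,
      smul_eq_mul, div_mul_cancel₀ _ hT.ne', sub_eq_zero] at hg3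
    exact hg3.symm

lemma compact_lim (K : X →L[ℝ] Y) (hK : IsCompactOperator K) (u : ℕ → X) (hu : ∀ n, ‖u n‖ ≤ 1)
    (x : X) (hx : ∀ f : StrongDual ℝ X, Tendsto (fun n => f (u n)) atTop (𝓝 (f x))) :
    Tendsto (fun n => K (u n)) (hyperfilter ℕ) (𝓝 (K x)) := by
  have hc := IsCompactOperator.isCompact_closure_image_closedBall (f := (K : X →ₗ[ℝ] Y)) hK 1
  obtain ⟨y, -, hy⟩ := hc.ultrafilter_le_nhds ((hyperfilter ℕ).map fun n => K (u n))
    (le_principal_iff.2 (mem_map.2 (Eventually.of_forall fun n =>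
      subset_closure ⟨u n, mem_closedBall_zero_iff.2 (hu n), rfl⟩)))
  have hy' : Tendsto (fun n => K (u n)) (hyperfilter ℕ) (𝓝 y) := hy
  have : y = K x := (SeparatingDual.eq_iff_forall_dual_eq (R := ℝ)).2 fun g =>
    tendsto_nhds_unique ((g.continuous.tendsto y).comp hy')
      ((hx (g.comp K)).mono_left Nat.hyperfilter_le_atTop)
  rwa [this] at hy'

theorem weak_limit [CompleteSpace X] [CompleteSpace Y]
    (hR : Function.Surjective (NormedSpace.inclusionInDoubleDual ℝ X)) (T : X →L[ℝ] Y)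
    (hBS : BhatiaSemrl T)
    (h : ∀ Q : Set X, IsCompact Q → ∀ ε : ℝ, 0 < ε →
      ∃ K : X →L[ℝ] Y, IsCompactOperator K ∧ ∀ x ∈ Q, ‖K x - T x‖ ≤ ε)
    (u : ℕ → X) (hu : ∀ n, ‖u n‖ ≤ 1) (hl : Tendsto (fun n => ‖T (u n)‖) atTop (𝓝 ‖T‖))
    (x : X) (hx : ∀ f : StrongDual ℝ X, Tendsto (fun n => f (u n)) atTop (𝓝 (f x))) :
    ‖T‖ ≤ ‖T x‖ := by
  by_contra hlt
  rw [not_le] at hlt
  have hT : 0 < ‖T‖ := (norm_nonneg _).trans_lt hlt
  set γ := ‖T‖ - ‖T x‖ with hγ
  have hγ0 : 0 < γ := sub_pos.2 hlt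
  obtain ⟨C₀, S, hC1, hC2, hC3, hS⟩ := exists_seq hR T (bounded_of_compact hR T h)
    (fun n => Nat.casesOn n x u)
  have hSx : S x = T x := hS 0
  have hSu : ∀ n, S (u n) = T (u n) := fun n => hS (n + 1)
  obtain ⟨n₀, hn₀⟩ := Metric.tendsto_atTop.1 (hC3 x) (γ / 2) (half_pos hγ0)
  set M : ℝ := 48 * (‖T‖ + 1) with hM
  let C : ℕ → X →L[ℝ] Y := fun n => C₀ (n + n₀)
  choose g hg hg' using fun n => exists_dual_vector'' ℝ (T (u n))
  obtain ⟨w, hw1, hw⟩ := exists_weak_limit (V := X →L[ℝ] Y)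
    (fun n => (g n).comp (ContinuousLinearMap.apply ℝ Y (u n))) (M := 1) fun n =>
      ContinuousLinearMap.opNorm_le_bound _ zero_le_one fun B => by
        have h5 : ‖g n (B (u n))‖ ≤ 1 * ‖B (u n)‖ := (g n).le_of_opNorm_le (hg n) _
        rw [one_mul] at h5 ⊢
        exact h5.trans (B.unit_le_opNorm _ (hu n))
  replace hw : ∀ B : X →L[ℝ] Y, Tendsto (fun n => g n (B (u n))) (hyperfilter ℕ) (𝓝 (w B)) := hw
  have hl' : Tendsto (fun n => g n (T (u n))) (hyperfilter ℕ) (𝓝 ‖T‖) :=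
    (hl.mono_left Nat.hyperfilter_le_atTop).congr fun n => by simpa using (hg' n).symm
  have hwT : w T = ‖T‖ := tendsto_nhds_unique (hw T) hl'
  have hwS : w S = ‖T‖ := tendsto_nhds_unique (hw S) (hl'.congr fun n => by rw [hSu])
  have hwK : ∀ K : X →L[ℝ] Y, IsCompactOperator K → w K ≤ ‖K x‖ := fun K hK =>
    le_of_tendsto_of_tendsto' (hw K) (compact_lim K hK u hu x hx).norm fun n => by
      have h5 : ‖g n (K (u n))‖ ≤ 1 * ‖K (u n)‖ := (g n).le_of_opNorm_le (hg n) _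
      rw [one_mul] at h5
      exact (le_abs_self _).trans h5
  let a₀ : St T := ⟨w, fun B => by
    have h5 : ‖w B‖ ≤ 1 * ‖B‖ := w.le_of_opNorm_le hw1 _
    rwa [one_mul] at h5, hwT⟩
  have hM0 : 0 ≤ M := by positivity
  set L : ℝ := ‖S‖ + M + 1 with hL
  have hL0 : 0 < L := by positivity
  let D : ℕ → X →L[ℝ] Y := fun n => L⁻¹ • (S - C n)
  have hD1 : ∀ n, ‖D n‖ ≤ 1 := fun n => by
    have h1 : ‖S - C n‖ ≤ L := (norm_sub_le _ _).trans (by linarith [hC2 (n + n₀)])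
    have h2 : ‖D n‖ ≤ ‖L⁻¹‖ * ‖S - C n‖ := ContinuousLinearMap.opNorm_smul_le _ _
    rw [Real.norm_of_nonneg (by positivity)] at h2
    refine h2.trans ?_
    rw [inv_mul_le_iff₀ hL0, mul_one]
    exact h1
  let σ : (X →L[ℝ] Y) → ℝ := fun v => ⨆ a : St T, a.1 v
  have hbdd : ∀ v, BddAbove (range fun a : St T => a.1 v) := fun v =>
    ⟨‖v‖, by rintro _ ⟨b, rfl⟩; exact (abs_le.1 (b.2.1 v)).2⟩
  let B : ℕ → Set (X →L[ℝ] Y) := fun k => closure (convexHull ℝ (D '' Ici k))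
  set θ : ℝ := L⁻¹ * (γ / 2) with hθ
  have hθ0 : 0 < θ := by positivity
  have hcomp : ∀ v ∈ B 0, IsCompactOperator (S - L • v : X →L[ℝ] Y) := by
    intro v hv
    have h1 : IsClosed {v : X →L[ℝ] Y | IsCompactOperator (S - L • v : X →L[ℝ] Y)} :=
      isClosed_setOfPred_isCompactOperator.preimage (f := fun v : X →L[ℝ] Y => S - L • v)
        (by fun_prop)
    refine closure_minimal (convexHull_min ?_ ?_) h1 hv
    · rintro _ ⟨n, -, rfl⟩
      have : S - L • D n = C n := by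
        simp only [D]
        rw [smul_inv_smul₀ hL0.ne', sub_sub_cancel]
      change IsCompactOperator (S - L • D n : X →L[ℝ] Y)
      rw [this]
      exact hC1 _
    · intro a ha b hb s t hs ht hst
      have h2 : S - L • (s • a + t • b) = s • (S - L • a) + t • (S - L • b) := by
        have h3 : S = (s + t) • S := by rw [hst, one_smul]
        conv_lhs => rw [h3]
        module
      change IsCompactOperator (S - L • (s • a + t • b) : X →L[ℝ] Y)
      rw [h2]
      exact (compactOperator (RingHom.id ℝ) X Y).add_mem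
        ((compactOperator (RingHom.id ℝ) X Y).smul_mem s ha)
        ((compactOperator (RingHom.id ℝ) X Y).smul_mem t hb)
  have hsm : ∀ v ∈ B 0, ‖v x‖ ≤ θ := by
    intro v hv
    have h1 := closure_minimal
      (t := (ContinuousLinearMap.apply ℝ Y x) ⁻¹' Metric.closedBall 0 θ)
      (convexHull_min (s := D '' Ici 0) (by
        rintro _ ⟨j, -, rfl⟩
        rw [mem_preimage, mem_closedBall_zero_iff]
        change ‖L⁻¹ • (S x - C j x)‖ ≤ θ
        rw [norm_smul, Real.norm_of_nonneg (by positivity), ← dist_eq_norm, dist_comm]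
        exact mul_le_mul_of_nonneg_left (hn₀ (j + n₀) (by omega)).le (by positivity))
      ((convex_closedBall 0 θ).linear_preimage
        (ContinuousLinearMap.apply ℝ Y x : (X →L[ℝ] Y) →ₗ[ℝ] Y)))
      (Metric.isClosed_closedBall.preimage (ContinuousLinearMap.continuous _)) hv
    exact mem_closedBall_zero_iff.1 h1
  have hθσ : ∀ v ∈ B 0, θ ≤ σ v := by
    intro v hv
    refine le_trans ?_ (le_ciSup (hbdd v) a₀)
    change θ ≤ w v
    have h1 := hwK _ (hcomp v hv)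
    rw [map_sub, map_smul, hwS, smul_eq_mul] at h1
    have h2 : ‖(S - L • v) x‖ ≤ ‖T x‖ + L * θ := by
      rw [sub_apply, smul_apply, hSx]
      refine (norm_sub_le _ _).trans ?_
      rw [norm_smul, Real.norm_of_nonneg hL0.le]
      linarith [mul_le_mul_of_nonneg_left (hsm v hv) hL0.le]
    have h3 : L * θ = γ / 2 := by rw [hθ, ← mul_assoc, mul_inv_cancel₀ hL0.ne', one_mul]
    refine le_of_mul_le_mul_left ?_ hL0
    linarith
  have hB1 : ∀ k, ∀ g ∈ B k, ‖g‖ ≤ 1 := fun k g hg => by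
    have := closure_minimal (t := Metric.closedBall 0 1)
      (convexHull_min (s := D '' Ici k) (by rintro _ ⟨j, -, rfl⟩; simpa using hD1 j)
      (convex_closedBall 0 1)) Metric.isClosed_closedBall hg
    simpa using this
  obtain ⟨r, hrB, hr⟩ := simons_core (fun v => max θ (σ v)) B (fun k => isClosed_closure)
    (fun k => (convex_convexHull ℝ _).closure)
    (fun k => ((nonempty_Ici (a := k)).image D).convexHull.closure)
    (fun k => closure_mono (convexHull_mono (image_mono (Ici_subset_Ici.2 (Nat.le_succ k))))) hB1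
    θ (fun v => le_max_left _ _) (half_pos hθ0)
  obtain ⟨a, z, f, hz, ha⟩ := att_st T hT hBS a₀ (r 0)
  have : Nonempty (St T) := ⟨a⟩
  have hσr : σ (r 0) ≤ a.1 (r 0) := ciSup_le ha
  have h3 := hr a.1 0 (fun v _ => le_max_of_le_right (by
      rw [sub_zero]; exact le_ciSup (hbdd v) a))
    (by rw [sub_zero]; exact max_le ((hθσ _ (hrB 0)).trans hσr) hσr)
  have h4 : Tendsto (fun n => a.1 (D n)) atTop (𝓝 0) := by
    have h5 : Tendsto (fun n => f (L⁻¹ • (S z - C n z))) atTop (𝓝 (f (L⁻¹ • (S z - S z)))) :=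
      (f.continuous.tendsto _).comp
        ((((hC3 z).comp (tendsto_add_atTop_nat n₀)).const_sub _).const_smul _)
    rw [sub_self, smul_zero, map_zero] at h5
    exact h5.congr fun n => (hz (D n)).symm
  obtain ⟨k, hk⟩ := eventually_atTop.1 (h4.eventually (gt_mem_nhds (show 0 < θ / 4 by positivity)))
  have h5 : a.1 (r k) ≤ θ / 4 :=
    le_of_mem_closure_hull _ (by rintro _ ⟨j, hj, rfl⟩; exact (hk j hj).le) (hrB k)
  have h6 := h3 k
  have h7 := (hθσ _ (hrB 0)).trans hσr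
  linarith

end Pool.Agent.FS.WeakLim
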